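import Mathlib

/-!
# MP_7cc4cd_co, Q1 and Q2: the inequality fails when only two vertices are outside triangles

The graph is connected and has 11 vertices and 15 edges; the vertices outside triangles are `0`
and `9`, its total domination number is at least 6 and its matching number at most 5.
-/

set_option autoImplicit false

namespace Pool.Agent.Results.MP_7cc4cd_co.TwoExceptional

/-- `v` lies in a triangle of `G`. -/
def InTriangle {V : Type} (G : SimpleGraph V) (v : V) : Prop :=
  ∃ a b : V, G.Adj v a ∧ G.Adj v b ∧ G.Adj a b

/-- The class of the problem: every component has at least four vertices, and all but at most `k`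
vertices lie in a triangle. -/
def InClass {V : Type} [Fintype V] (G : SimpleGraph V) (k : ℕ) : Prop :=
  (∀ C : G.ConnectedComponent, 4 ≤ C.supp.ncard) ∧ {v | ¬ InTriangle G v}.ncard ≤ k

/-- `S` is a total dominating set. -/
def IsTotalDom {V : Type} (G : SimpleGraph V) (S : Finset V) : Prop :=
  ∀ v, ∃ u ∈ S, G.Adj v u

/-- The total domination number. -/
noncomputable def totalDomNum {V : Type} (G : SimpleGraph V) : ℕ :=
  sInf {k | ∃ S : Finset V, IsTotalDom G S ∧ S.card = k}

/-- `M` is a matching: a set of pairwise disjoint edges. -/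
def IsMatch {V : Type} (G : SimpleGraph V) (M : Finset (Sym2 V)) : Prop :=
  (∀ e ∈ M, e ∈ G.edgeSet) ∧ ∀ e ∈ M, ∀ f ∈ M, e ≠ f → ∀ v, v ∈ e → v ∉ f

/-- The matching number. -/
noncomputable def matchNum {V : Type} (G : SimpleGraph V) : ℕ :=
  sSup {k | ∃ M : Finset (Sym2 V), IsMatch G M ∧ M.card = k}

/-- The neighbours of the vertices. -/
def nb : Fin 11 → Finset (Fin 11) :=
  ![{3, 9}, {2, 3, 8, 10}, {1, 5, 8}, {0, 1, 10}, {6, 7}, {2, 8}, {4, 7, 10}, {4, 6, 10}, {1, 2, 5}, {0}, {1, 3, 6, 7}]

/-- The example. -/
def G : SimpleGraph (Fin 11) where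
  Adj a b := b ∈ nb a
  symm := ⟨by decide⟩
  loopless := ⟨by decide⟩

instance : DecidableRel G.Adj := fun a b => by unfold G; infer_instance

instance (v : Fin 11) : Decidable (InTriangle G v) := by unfold InTriangle; infer_instance

instance (S : Finset (Fin 11)) : Decidable (IsTotalDom G S) := by
  unfold IsTotalDom; infer_instance

/-- The distances to the vertex `10`. -/
def rk : Fin 11 → ℕ := ![2, 1, 2, 1, 2, 3, 1, 1, 2, 3, 0]

theorem connected : G.Connected := by
  have hstep : ∀ v : Fin 11, v = 10 ∨ ∃ u : Fin 11, rk u < rk v ∧ G.Adj v u := by decide +kernel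
  have key : ∀ k : ℕ, ∀ v : Fin 11, rk v = k → G.Reachable v 10 := by
    intro k
    induction k using Nat.strong_induction_on with
    | _ k ih =>
      intro v hv
      rcases hstep v with h | ⟨u, h1, h2⟩
      · rw [h]
      · exact h2.reachable.trans (ih (rk u) (by omega) u rfl)
  exact SimpleGraph.Connected.mk fun u v => (key _ u rfl).trans (key _ v rfl).symm

theorem six_le : ∀ S : Finset (Fin 11), IsTotalDom G S → 6 ≤ S.card := by decide +kernel

theorem six_le_totalDomNum : 6 ≤ totalDomNum G := by
  obtain ⟨S, hS, hc⟩ := Nat.sInf_mem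
    (s := {k | ∃ S : Finset (Fin 11), IsTotalDom G S ∧ S.card = k})
    ⟨_, Finset.univ, by decide +kernel, rfl⟩
  unfold totalDomNum
  rw [← hc]
  exact six_le S hS

/-- A matching in a graph with eleven vertices has at most five edges. -/
theorem match_le (M : Finset (Sym2 (Fin 11))) (hM : IsMatch G M) : M.card ≤ 5 := by
  classical
  have h1 : ∀ e ∈ M, e.toFinset.card = 2 := fun e he =>
    Sym2.card_toFinset_of_not_isDiag e (G.not_isDiag_of_mem_edgeSet (hM.1 e he))
  have h2 : (M.biUnion (fun e => e.toFinset)).card = ∑ e ∈ M, e.toFinset.card := by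
    apply Finset.card_biUnion
    intro e he f hf hef
    rw [Function.onFun, Finset.disjoint_left]
    intro v hv hv'
    rw [Sym2.mem_toFinset] at hv hv'
    exact hM.2 e he f hf hef v hv hv'
  have h3 : (M.biUnion (fun e => e.toFinset)).card ≤ 11 := by
    refine le_trans (Finset.card_le_univ _) ?_
    simp
  rw [h2, Finset.sum_congr rfl h1] at h3
  simp at h3
  omega

theorem matchNum_le : matchNum G ≤ 5 := by
  unfold matchNum
  apply csSup_le
  · exact ⟨0, ∅, ⟨by simp, by simp⟩, rfl⟩
  · rintro k ⟨M, hM, rfl⟩
    exact match_le M hM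

theorem inClass : InClass G 2 := by
  constructor
  · intro C
    have hsub := connected.preconnected.subsingleton_connectedComponent
    have : C.supp = Set.univ := by
      ext v
      simp only [SimpleGraph.ConnectedComponent.mem_supp_iff, Set.mem_univ, iff_true]
      exact Subsingleton.elim _ _
    rw [this, Set.ncard_univ]
    simp
  · have : {v | ¬ InTriangle G v} = ((Finset.univ.filter (fun v => ¬ InTriangle G v) :
        Finset (Fin 11)) : Set (Fin 11)) := by
      ext v; simp
    rw [this, Set.ncard_coe_finset]
    decide +kernel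

/-- There is a connected graph with eleven vertices, all but two of which lie in a triangle,
whose total domination number is larger than its matching number. -/
theorem result : ∃ G : SimpleGraph (Fin 11), G.Connected ∧ InClass G 2 ∧
    matchNum G < totalDomNum G :=
  ⟨G, connected, inClass, by
    have h1 := matchNum_le
    have h2 := six_le_totalDomNum
    omega⟩

end Pool.Agent.Results.MP_7cc4cd_co.TwoExceptional
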